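import Pool.Agent.H628R4.TP.Weyl

set_option autoImplicit false

namespace Pool.Agent.H628R4.TP

open MvPolynomial

variable {K r N : ℕ}

/-- exponent vector of the monomial `α` of a power of the product -/
noncomputable def Ex (v : Fin K → Fin r → Fin N → ℕ) (α : Fin K → Fin r → ℕ) :
    (Fin N ⊕ (Fin K × Fin r)) →₀ ℕ :=
  Finsupp.equivFunOnFinite.symm
    (Sum.elim (fun i => ∑ k, ∑ j, α k j * v k j i) (fun p => α p.1 p.2))

/-- shift vector -/
def Sh (v : Fin K → Fin r → Fin N → ℕ) (c : Fin K → Fin r → ℤ) :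
    (Fin N ⊕ (Fin K × Fin r)) → ℤ :=
  Sum.elim (fun i => ∑ k, ∑ j, c k j * (v k j i : ℤ)) (fun p => c p.1 p.2)

lemma Ex_inj (v : Fin K → Fin r → Fin N → ℕ) : Function.Injective (Ex v) := by
  intro α β h
  funext k j
  have := DFunLike.congr_fun h (Sum.inr (k, j))
  simpa [Ex] using this

lemma Sh_inj (v : Fin K → Fin r → Fin N → ℕ) : Function.Injective (Sh v) := by
  intro α β h
  funext k j
  exact congrFun h (Sum.inr (k, j))

def Sn (K r n : ℕ) : Finset (Fin K → Fin r → ℕ) :=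
  Fintype.piFinset fun _ => Finset.piAntidiag Finset.univ n

lemma mem_Sn {n : ℕ} {α : Fin K → Fin r → ℕ} : α ∈ Sn K r n ↔ ∀ k, ∑ j, α k j = n := by
  simp [Sn]

lemma term_monomial (v : Fin K → Fin r → Fin N → ℕ) (α : Fin K → Fin r → ℕ) :
    ∏ k, ∏ j, (X (Sum.inr (k, j)) * ∏ i, X (Sum.inl i) ^ v k j i :
      MvPolynomial (Fin N ⊕ (Fin K × Fin r)) ℂ) ^ α k j = monomial (Ex v α) 1 := by
  rw [monomial_eq, C_1, one_mul, Finsupp.prod_fintype _ _ (by simp), Fintype.prod_sum_type,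
    Fintype.prod_prod_type]
  simp only [Ex, Finsupp.equivFunOnFinite_symm_apply_apply, Sum.elim_inl, Sum.elim_inr, mul_pow,
    Finset.prod_mul_distrib]
  rw [mul_comm]
  congr 1
  simp only [← Finset.prod_pow, ← pow_mul]
  have h1 : ∀ k, ∏ j, ∏ i, (X (Sum.inl i) : MvPolynomial (Fin N ⊕ (Fin K × Fin r)) ℂ) ^
      (v k j i * α k j) = ∏ i, ∏ j, X (Sum.inl i) ^ (v k j i * α k j) := fun k => Finset.prod_comm
  simp only [h1]
  rw [Finset.prod_comm]
  refine Finset.prod_congr rfl fun i _ => ?_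
  simp only [Finset.prod_pow_eq_pow_sum]
  congr 1
  exact Finset.sum_congr rfl fun k _ => Finset.sum_congr rfl fun j _ => mul_comm _ _

lemma pow_expand (v : Fin K → Fin r → Fin N → ℕ) (n : ℕ) :
    prodPoly v ^ n = ∑ α ∈ Sn K r n,
      monomial (Ex v α) ((∏ k, Nat.multinomial Finset.univ (α k) : ℕ) : ℂ) := by
  unfold prodPoly Sn
  rw [← Finset.prod_pow]
  simp only [Finset.sum_pow_eq_sum_piAntidiag]
  rw [Finset.prod_univ_sum]
  refine Finset.sum_congr rfl fun α _ => ?_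
  rw [Finset.prod_mul_distrib, term_monomial, ← Nat.cast_prod]
  rw [show ((∏ k, Nat.multinomial Finset.univ (α k) : ℕ) :
    MvPolynomial (Fin N ⊕ (Fin K × Fin r)) ℂ) =
    C ((∏ k, Nat.multinomial Finset.univ (α k) : ℕ) : ℂ) from (map_natCast C _).symm,
    C_mul_monomial, mul_one]

lemma coeff_pow (v : Fin K → Fin r → Fin N → ℕ) (n : ℕ) (α : Fin K → Fin r → ℕ)
    (hα : α ∈ Sn K r n) :
    coeff (Ex v α) (prodPoly v ^ n) = ((∏ k, Nat.multinomial Finset.univ (α k) : ℕ) : ℂ) := by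
  rw [pow_expand, coeff_sum, Finset.sum_eq_single α]
  · rw [coeff_monomial, if_pos rfl]
  · intro β _ hβ
    rw [coeff_monomial, if_neg fun h => hβ (Ex_inj v h)]
  · exact fun h => absurd hα h

/-- factorial identity, one index -/
lemma fact_id (a : ℕ) (c : ℤ) (h : 0 ≤ (a : ℤ) + c) :
    (a.factorial : ℂ) * ((((a : ℤ) + c).toNat).descFactorial c.toNat : ℂ) =
      ((((a : ℤ) + c).toNat).factorial : ℂ) * (a.descFactorial (-c).toNat : ℂ) := by
  rcases le_or_gt 0 c with hc | hc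
  · obtain ⟨k, rfl⟩ := Int.eq_ofNat_of_zero_le hc
    have h1 : ((a : ℤ) + (k : ℤ)).toNat = a + k := by omega
    have h2 : (-(k : ℤ)).toNat = 0 := by omega
    have h3 : ((k : ℤ)).toNat = k := by omega
    rw [h1, h2, h3, Nat.descFactorial_zero, Nat.cast_one, mul_one]
    have := Nat.factorial_mul_descFactorial (show k ≤ a + k by omega)
    rw [Nat.add_sub_cancel] at this
    exact_mod_cast this
  · obtain ⟨k, hk⟩ := Int.eq_ofNat_of_zero_le (show 0 ≤ -c by omega)
    have h1 : ((a : ℤ) + c).toNat = a - k := by omega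
    have h2 : (-c).toNat = k := by omega
    have h3 : c.toNat = 0 := by omega
    rw [h1, h2, h3, Nat.descFactorial_zero, Nat.cast_one, mul_one]
    have := Nat.factorial_mul_descFactorial (show k ≤ a by omega)
    exact_mod_cast this.symm

lemma fact_mult (n : ℕ) (α : Fin K → Fin r → ℕ) (hα : α ∈ Sn K r n) :
    (∏ k, ∏ j, ((α k j).factorial : ℂ)) * ((∏ k, Nat.multinomial Finset.univ (α k) : ℕ) : ℂ) =
      (n.factorial : ℂ) ^ K := by
  push_cast
  rw [← Finset.prod_mul_distrib]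
  have h1 : ∀ k, (∏ j, ((α k j).factorial : ℂ)) * (Nat.multinomial Finset.univ (α k) : ℂ) =
      (n.factorial : ℂ) := by
    intro k
    have := Nat.multinomial_spec (Finset.univ) (α k)
    rw [mem_Sn.1 hα k] at this
    exact_mod_cast this
  simp [h1]

/-- The numerical relation. -/
theorem num_rel (v : Fin K → Fin r → Fin N → ℕ) (b : Polynomial ℂ) (hb : IsBFunction (prodPoly v) b) :
    ∃ (S : Finset (Fin K → Fin r → ℤ)) (M : Finset ℕ)
      (q : ℕ → (Fin K → Fin r → ℤ) → MvPolynomial (Fin N ⊕ (Fin K × Fin r)) ℂ),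
      (∀ c ∈ S, ∀ k, ∑ j, c k j = 1) ∧
      ∀ (n : ℕ) (α : Fin K → Fin r → ℕ), α ∈ Sn K r n →
        b.eval (n : ℂ) = ((n : ℂ) + 1) ^ K * ∑ c ∈ S,
          if ∀ k j, 0 ≤ (α k j : ℤ) + c k j then
          (∏ k, ∏ j, ((α k j).descFactorial (-c k j).toNat : ℂ)) *
          (∏ i, (((∑ k, ∑ j, α k j * v k j i : ℕ) + Sh v c (Sum.inl i)).toNat.descFactorial
            (Sh v c (Sum.inl i)).toNat : ℂ)) *
          ∑ m ∈ M, (n : ℂ) ^ m * eval (fun x => ((Ex v α x : ℕ) : ℂ) + ((Sh v c x : ℤ) : ℂ)) (q m c)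
          else 0 := by
  classical
  obtain ⟨P, hP⟩ := hb
  choose Q hQf hQ using fun (T : weylS (Fin N ⊕ (Fin K × Fin r))) =>
    act_weyl (T : Module.End ℂ (MvPolynomial (Fin N ⊕ (Fin K × Fin r)) ℂ)) T.2
  have hfin : ({c : Fin K → Fin r → ℤ | (∀ k, ∑ j, c k j = 1) ∧
      ∃ m ∈ P.support, Q (P m) (Sh v c) ≠ 0} : Set _).Finite := by
    have h1 : ((⋃ m ∈ P.support, (Sh v) ⁻¹' Function.support (Q (P m))) : Set _).Finite :=
      Set.Finite.biUnion P.support.finite_toSet fun m _ =>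
        (hQf (P m)).preimage (Sh_inj v).injOn
    refine h1.subset fun c hc => ?_
    obtain ⟨_, m, hm, hq⟩ := hc
    simp only [Set.mem_iUnion]
    exact ⟨m, hm, hq⟩
  refine ⟨hfin.toFinset, P.support, fun m c => Q (P m) (Sh v c), fun c hc => ?_,
    fun n α hα => ?_⟩
  · exact ((Set.Finite.mem_toFinset hfin).1 hc).1
  have h1 := congrArg (coeff (Ex v α)) (hP n)
  rw [coeff_C_mul, coeff_pow v n α hα, Finsupp.sum, coeff_sum] at h1
  -- the coefficient for the shift
  set F : (Fin K → Fin r → ℕ) → ℂ := fun γ =>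
    ((∏ k, Nat.multinomial Finset.univ (γ k) : ℕ) : ℂ) * ∑ m ∈ P.support, (n : ℂ) ^ m *
      (eval (fun x => ((Ex v γ x : ℕ) : ℂ)) (Q (P m) (Sh v fun k j => (γ k j : ℤ) - α k j)) *
      ∏ x, ((Ex v γ x).descFactorial (Sh v (fun k j => (γ k j : ℤ) - α k j) x).toNat : ℂ)) with hF
  have hsh : ∀ γ : Fin K → Fin r → ℕ, ∀ x, ((Ex v γ x : ℕ) : ℤ) =
      (Ex v α x : ℕ) + Sh v (fun k j => (γ k j : ℤ) - α k j) x := by
    intro γ x
    rcases x with i | ⟨k, j⟩
    · simp only [Ex, Sh, Finsupp.equivFunOnFinite_symm_apply_apply, Sum.elim_inl]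
      push_cast
      rw [← Finset.sum_add_distrib]
      refine Finset.sum_congr rfl fun k _ => ?_
      rw [← Finset.sum_add_distrib]
      exact Finset.sum_congr rfl fun j _ => by ring
    · simp [Ex, Sh]
  have h2 : b.eval (n : ℂ) * ((∏ k, Nat.multinomial Finset.univ (α k) : ℕ) : ℂ) =
      ∑ γ ∈ Sn K r (n+1), F γ := by
    rw [h1]
    have h3 : ∀ m ∈ P.support, coeff (Ex v α) (((n : ℂ) ^ m) •
        ((P m : weylS (Fin N ⊕ (Fin K × Fin r))) : Module.End ℂ _) (prodPoly v ^ (n+1))) =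
        ∑ γ ∈ Sn K r (n+1), (n : ℂ) ^ m * (((∏ k, Nat.multinomial Finset.univ (γ k) : ℕ) : ℂ) *
        (eval (fun x => ((Ex v γ x : ℕ) : ℂ)) (Q (P m) (Sh v fun k j => (γ k j : ℤ) - α k j)) *
        ∏ x, ((Ex v γ x).descFactorial
          (Sh v (fun k j => (γ k j : ℤ) - α k j) x).toNat : ℂ))) := by
      intro m _
      rw [coeff_smul, smul_eq_mul, pow_expand, map_sum, coeff_sum, Finset.mul_sum]
      refine Finset.sum_congr rfl fun γ _ => ?_
      congr 1
      have h4 : (monomial (Ex v γ) ((∏ k, Nat.multinomial Finset.univ (γ k) : ℕ) : ℂ) :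
          MvPolynomial (Fin N ⊕ (Fin K × Fin r)) ℂ) =
          ((∏ k, Nat.multinomial Finset.univ (γ k) : ℕ) : ℂ) • monomial (Ex v γ) 1 := by
        rw [smul_monomial, smul_eq_mul, mul_one]
      rw [h4, map_smul, coeff_smul, smul_eq_mul, hQ (P m) _ _ _ (hsh γ)]
    rw [Finset.sum_congr rfl h3, Finset.sum_comm]
    refine Finset.sum_congr rfl fun γ _ => ?_
    rw [hF]
    simp only [Finset.mul_sum]
    exact Finset.sum_congr rfl fun m _ => by ring
  -- reindexing
  have h5 : ∑ γ ∈ Sn K r (n+1), F γ = ∑ c ∈ hfin.toFinset,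
      if ∀ k j, 0 ≤ (α k j : ℤ) + c k j then F (fun k j => ((α k j : ℤ) + c k j).toNat) else 0 := by
    rw [← Finset.sum_filter]
    have h6 : ∑ γ ∈ Sn K r (n+1), F γ =
        ∑ γ ∈ (Sn K r (n+1)).filter (fun γ => (fun k j => (γ k j : ℤ) - α k j) ∈ hfin.toFinset),
          F γ := by
      rw [Finset.sum_filter_of_ne]
      intro γ hγ hne
      rw [Set.Finite.mem_toFinset]
      refine ⟨fun k => ?_, ?_⟩
      · rw [Finset.sum_sub_distrib]
        have h7 := mem_Sn.1 hγ k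
        have h8 := mem_Sn.1 hα k
        rw [← Nat.cast_sum, ← Nat.cast_sum, h7, h8]
        push_cast
        ring
      · by_contra hno
        push Not at hno
        apply hne
        rw [hF]
        simp only
        rw [Finset.sum_eq_zero, mul_zero]
        intro m hm
        rw [hno m hm]
        simp
    rw [h6]
    refine Finset.sum_bij' (fun γ _ => fun k j => (γ k j : ℤ) - α k j)
      (fun c _ => fun k j => ((α k j : ℤ) + c k j).toNat) ?_ ?_ ?_ ?_ ?_
    · intro γ hγ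
      rw [Finset.mem_filter] at hγ ⊢
      refine ⟨hγ.2, fun k j => ?_⟩
      show 0 ≤ (α k j : ℤ) + ((γ k j : ℤ) - α k j)
      omega
    · intro c hc
      rw [Finset.mem_filter] at hc ⊢
      have h9 := ((Set.Finite.mem_toFinset hfin).1 hc.1).1
      have h10 : ∀ k j, ((((α k j : ℤ) + c k j).toNat : ℕ) : ℤ) = (α k j : ℤ) + c k j :=
        fun k j => Int.toNat_of_nonneg (hc.2 k j)
      refine ⟨mem_Sn.2 fun k => ?_, ?_⟩
      · have h8 := mem_Sn.1 hα k
        have : ((∑ j, ((α k j : ℤ) + c k j).toNat : ℕ) : ℤ) = ((n + 1 : ℕ) : ℤ) := by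
          rw [Nat.cast_sum, Finset.sum_congr rfl fun j _ => h10 k j, Finset.sum_add_distrib,
            h9 k, ← Nat.cast_sum, h8]
          push_cast
          ring
        exact_mod_cast this
      · have : (fun k j => ((((α k j : ℤ) + c k j).toNat : ℕ) : ℤ) - α k j) = c := by
          funext k j
          rw [h10]
          ring
        rw [this]
        exact hc.1
    · intro γ _
      funext k j
      simp
    · intro c hc
      rw [Finset.mem_filter] at hc
      funext k j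
      have := Int.toNat_of_nonneg (hc.2 k j)
      simp only
      omega
    · intro γ _
      congr 1
      funext k j
      simp
  have hfac : (∏ k, ∏ j, ((α k j).factorial : ℂ)) ≠ 0 :=
    Finset.prod_ne_zero_iff.2 fun k _ => Finset.prod_ne_zero_iff.2 fun j _ => by
      exact_mod_cast Nat.factorial_ne_zero _
  have hn : ((n.factorial : ℂ)) ≠ 0 := by exact_mod_cast Nat.factorial_ne_zero _
  have h11 : b.eval (n : ℂ) * (n.factorial : ℂ) ^ K =
      (∏ k, ∏ j, ((α k j).factorial : ℂ)) * ∑ c ∈ hfin.toFinset,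
      if ∀ k j, 0 ≤ (α k j : ℤ) + c k j then F (fun k j => ((α k j : ℤ) + c k j).toNat) else 0 := by
    rw [← h5, ← h2, ← fact_mult n α hα]
    ring
  have h12 : ((n + 1).factorial : ℂ) = ((n : ℂ) + 1) * (n.factorial : ℂ) := by
    rw [Nat.factorial_succ]; push_cast; ring
  refine mul_right_cancel₀ (pow_ne_zero K hn) ?_
  rw [h11, mul_right_comm, ← mul_pow, ← h12, Finset.mul_sum, Finset.mul_sum]
  refine Finset.sum_congr rfl fun c hc => ?_
  split_ifs with hpos
  swap
  · simp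
  have h9 := ((Set.Finite.mem_toFinset hfin).1 hc).1
  have h10 : ∀ k j, ((((α k j : ℤ) + c k j).toNat : ℕ) : ℤ) = (α k j : ℤ) + c k j :=
    fun k j => Int.toNat_of_nonneg (hpos k j)
  set γ : Fin K → Fin r → ℕ := fun k j => ((α k j : ℤ) + c k j).toNat with hγ
  have hc' : (fun k j => (γ k j : ℤ) - α k j) = c := by
    funext k j
    rw [hγ]
    simp only
    rw [h10]
    ring
  have hγS : γ ∈ Sn K r (n+1) := by
    refine mem_Sn.2 fun k => ?_
    have h8 := mem_Sn.1 hα k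
    have : ((∑ j, γ k j : ℕ) : ℤ) = ((n + 1 : ℕ) : ℤ) := by
      rw [Nat.cast_sum, Finset.sum_congr rfl fun j _ => h10 k j, Finset.sum_add_distrib,
        h9 k, ← Nat.cast_sum, h8]
      push_cast
      ring
    exact_mod_cast this
  have hshc := hsh γ
  rw [hc'] at hshc
  rw [hF]
  simp only
  rw [hc']
  have h13 : ∀ x, ((Ex v γ x : ℕ) : ℂ) = ((Ex v α x : ℕ) : ℂ) + ((Sh v c x : ℤ) : ℂ) := by
    intro x
    exact_mod_cast hshc x
  simp only [h13]
  have h14 : ∏ x, ((Ex v γ x).descFactorial (Sh v c x).toNat : ℂ) =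
      (∏ i, (((∑ k, ∑ j, α k j * v k j i : ℕ) + Sh v c (Sum.inl i)).toNat.descFactorial
            (Sh v c (Sum.inl i)).toNat : ℂ)) *
      ∏ k, ∏ j, ((γ k j).descFactorial (c k j).toNat : ℂ) := by
    rw [Fintype.prod_sum_type, Fintype.prod_prod_type]
    congr 1
    · refine Finset.prod_congr rfl fun i _ => ?_
      have h15 : Ex v γ (Sum.inl i) =
          ((∑ k, ∑ j, α k j * v k j i : ℕ) + Sh v c (Sum.inl i)).toNat := by
        have h16 := hshc (Sum.inl i)
        have h17 : Ex v α (Sum.inl i) = ∑ k, ∑ j, α k j * v k j i := by simp [Ex]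
        rw [h17] at h16
        omega
      rw [h15]
  have h18 : (∏ k, ∏ j, ((α k j).factorial : ℂ)) *
      ∏ k, ∏ j, ((γ k j).descFactorial (c k j).toNat : ℂ) =
      (∏ k, ∏ j, ((γ k j).factorial : ℂ)) *
      ∏ k, ∏ j, ((α k j).descFactorial (-c k j).toNat : ℂ) := by
    simp only [← Finset.prod_mul_distrib]
    exact Finset.prod_congr rfl fun k _ => Finset.prod_congr rfl fun j _ =>
      fact_id (α k j) (c k j) (hpos k j)
  have h19 := fact_mult (n+1) γ hγS
  rw [h14, ← h19]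
  simp only [← mul_assoc, ← Finset.sum_mul]
  linear_combination (((∏ k, Nat.multinomial Finset.univ (γ k) : ℕ) : ℂ) *
    (∑ m ∈ P.support, (n : ℂ) ^ m * eval (fun x => ((Ex v α x : ℕ) : ℂ) + ((Sh v c x : ℤ) : ℂ))
      (Q (P m) (Sh v c))) *
    (∏ i, (((∑ k, ∑ j, α k j * v k j i : ℕ) + Sh v c (Sum.inl i)).toNat.descFactorial
            (Sh v c (Sum.inl i)).toNat : ℂ))) * h18

end Pool.Agent.H628R4.TP
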