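import Pool.Agent.H628R4.TZ.Defs

set_option autoImplicit false

/-! Products of universal sparse polynomials. -/

namespace Pool.Agent.H628R4.TP

open MvPolynomial

/-- The Weyl algebra in the variables `σ`, acting on polynomials: generated by the
multiplications by the variables and the partial derivatives. -/
noncomputable def weylS (σ : Type) : Subalgebra ℂ (Module.End ℂ (MvPolynomial σ ℂ)) :=
  Algebra.adjoin ℂ
    (Set.range (fun i => LinearMap.mulLeft ℂ (X i : MvPolynomial σ ℂ)) ∪
      Set.range (fun i => ((pderiv i : Derivation ℂ (MvPolynomial σ ℂ)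
        (MvPolynomial σ ℂ)) : MvPolynomial σ ℂ →ₗ[ℂ] MvPolynomial σ ℂ)))

/-- `b(s) f ^ s = P(s) f ^ (s + 1)` for some `P = ∑_m P_m s ^ m` with coefficients `P_m` in the
Weyl algebra. The equation is stated for all `s ∈ ℕ`; this is equivalent to the formal equation,
as the coefficients are polynomials in `s`. -/
def IsBFunction {σ : Type} (f : MvPolynomial σ ℂ) (b : Polynomial ℂ) : Prop :=
  ∃ P : ℕ →₀ weylS σ, ∀ s : ℕ, C (b.eval (s : ℂ)) * f ^ s =
    P.sum fun m Q => ((s : ℂ) ^ m) • (Q : Module.End ℂ (MvPolynomial σ ℂ)) (f ^ (s + 1))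

/-- The Bernstein-Sato polynomial `b_f`: the monic polynomial of least degree which satisfies a
functional equation. -/
def IsBernsteinSatoOf {σ : Type} (f : MvPolynomial σ ℂ) (b : Polynomial ℂ) : Prop :=
  b.Monic ∧ IsBFunction f b ∧
    ∀ b' : Polynomial ℂ, b'.Monic → IsBFunction f b' → b.natDegree ≤ b'.natDegree

/-- The polynomial `∏_{k < K} ∑_{j < r} y_{k,j} x ^ (v k j)` in the variables `x_i`, `i < N`, and
`y_{k,j}`. -/
noncomputable def prodPoly {K r N : ℕ} (v : Fin K → Fin r → Fin N → ℕ) :
    MvPolynomial (Fin N ⊕ (Fin K × Fin r)) ℂ :=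
  ∏ k, ∑ j, X (Sum.inr (k, j)) * ∏ i, X (Sum.inl i) ^ v k j i

/-- The exponents of the monomials in `x` of the product: `∑_k v k (J k)`, for all
`J : Fin K → Fin r` (enumerated by `Fin (r ^ K)`). -/
noncomputable def prodExp {K r N : ℕ} (v : Fin K → Fin r → Fin N → ℕ) :
    Fin (Fintype.card (Fin K → Fin r)) → Fin N → ℕ :=
  fun m i => ∑ k, v k ((Fintype.equivFin (Fin K → Fin r)).symm m k) i

/-- The topological zeta function of `f = prodPoly v`, computed on the log resolution
`X_Σ × ℂ ^ (K r) → ℂ ^ N × ℂ ^ (K r)`, where `X_Σ` is the toric variety of `R`. In the chart of a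
maximal cone, `f` is a monomial in the coordinates of the chart times
`∏_k (y_{k, J k} + ∑_{j ≠ J k} (monomial) y_{k,j})`, so that the strict transform of `{f = 0}` has
the `K` smooth components `H_k`, which cross each other and the `E_ρ × ℂ ^ (K r)` transversally.
Over a torus fixed point the stratum contained in all the `H_k` has Euler characteristic `1`, and
the others have Euler characteristic `0`; this gives the factor `1 / (s + 1) ^ K`. -/
noncomputable def topZetaProd {K r N : ℕ} {v : Fin K → Fin r → Fin N → ℕ}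
    (R : Pool.Agent.H628R4.TZ.ToricResolution (prodExp v)) : RatFunc ℂ :=
  Pool.Agent.H628R4.TZ.topZeta R * ((RatFunc.X + 1) ^ K)⁻¹

end Pool.Agent.H628R4.TP
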