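import Pool.Agent.H628R4.TZ.Final

set_option autoImplicit false

namespace Pool.Agent.H628R4.TP

open MeasureTheory Set Filter Topology Pool.Agent.H628R4.TZ


variable {r N : ℕ}

/-- the hypothesis that the functional kills `b(∑ X_j)` -/
def Kills (w : Fin r → Fin N → ℕ) (b : Polynomial ℂ) : Prop :=
  ∃ K : ℝ, 0 ≤ K ∧ ∀ ε > 0, ∀ T, ε * K < T → ∀ s : ℝ, 0 < s →
    Φ (ph ε) ∅ (lm (N := N) s) (av w) (fun _ => -T)
      (Polynomial.aeval (∑ j, MvPolynomial.X j : MvPolynomial (Fin r) ℂ) b) = 0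

theorem main_poly_of (v : Fin r → Fin N → ℕ) (b : Polynomial ℂ) (hR : Kills v b) :
    ∃ Q : Polynomial ℂ, ∀ s : ℝ, 0 < s → b.eval (s:ℂ) *
      (∫ x, wt (lm (N := N) s) x * (∏ j, if 0 < ∑ i, (v j i : ℝ) * x i.succ - x 0 then
        (1:ℂ) else 0) ∂(Measure.pi (ms ∅))) = Q.eval (s:ℂ) := by
  obtain ⟨K, hK, h⟩ := hR
  refine limit_poly (fun m => Pe v b (1 / ((m:ℝ)+1)) ((K + 1) / ((m:ℝ)+1))) b.natDegree
    (fun m => Pe_natDegree _ _ _ _) _ fun s hs => ?_
  have h1 := (Φ_lim v K hK s hs).const_mul (b.eval (s:ℂ))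
  refine h1.congr fun m => ?_
  have hm : (0:ℝ) < 1 / ((m:ℝ)+1) := by positivity
  refine Pe_eval v b _ _ s hm hs (h _ hm _ ?_ s hs)
  rw [one_div_mul_eq_div]
  exact div_lt_div_of_pos_right (by linarith) (by positivity)

open Polynomial in
theorem main_of [NeZero r] {v : Fin r → Fin N → ℕ} (R : ToricResolution v) (b : ℂ[X])
    (hb : Kills v b) :
    ∃ P : ℂ[X], algebraMap ℂ[X] (RatFunc ℂ) b * topZeta R = algebraMap ℂ[X] (RatFunc ℂ) P := by
  obtain ⟨Q, hQ⟩ := main_poly_of v b hb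
  set d : Fin R.n → Fin N → ℂ[X] := fun k i =>
    C ((ordAlong v (R.ray k i) : ℕ) : ℂ) * X + C ((∑ l, R.ray k i l : ℕ) : ℂ) with hd
  set Den : ℂ[X] := ∏ k, ∏ i, d k i with hDen
  set Num : ℂ[X] := ∑ k, ∏ k' ∈ Finset.univ.erase k, ∏ i, d k' i with hNum
  have hd0 : ∀ k i, d k i ≠ 0 := by
    intro k i h
    have := congrArg (fun p => p.coeff 0) h
    simp only [hd, coeff_add, mul_coeff_zero, coeff_X_zero, mul_zero, coeff_C_zero, zero_add,
      coeff_zero] at this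
    have h2 := ray_pos R k i
    have h3 : ((∑ l, R.ray k i l : ℕ) : ℂ) ≠ 0 := by exact_mod_cast h2.ne'
    exact h3 this
  have hDen0 : Den ≠ 0 := Finset.prod_ne_zero_iff.2 fun k _ =>
    Finset.prod_ne_zero_iff.2 fun i _ => hd0 k i
  have hZ : algebraMap ℂ[X] (RatFunc ℂ) Den * topZeta R = algebraMap ℂ[X] (RatFunc ℂ) Num := by
    have := den_num (algebraMap ℂ[X] (RatFunc ℂ)) d (fun k i => by
      rw [Ne, FaithfulSMul.algebraMap_eq_zero_iff]; exact hd0 k i)
    rw [← hDen, ← hNum] at this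
    rw [← this]
    congr 1
    unfold topZeta
    refine Finset.sum_congr rfl fun k _ => Finset.prod_congr rfl fun i _ => ?_
    congr 1
    simp [hd, RatFunc.algebraMap_X]
  have hkey : b * (Den - Num) = X * Q * Den := by
    refine Polynomial.eq_of_infinite_eval_eq _ _ ?_
    refine ((Set.Ioi_infinite (0:ℝ)).image Complex.ofReal_injective.injOn).mono ?_
    rintro _ ⟨s, hs, rfl⟩
    have hs' : 0 < s := hs
    have h1 := hQ s hs'
    have h2 := F_eq R s hs'
    have h3 : ∀ k i, (evalRingHom (s:ℂ)) (d k i) = (kap R s k i : ℂ) := by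
      intro k i
      simp only [hd, kap, coe_evalRingHom, eval_add, eval_mul, eval_C, eval_X]
      push_cast
      ring
    have h4 := den_num (evalRingHom (s:ℂ)) d (fun k i => by
      rw [h3]; exact_mod_cast (kap_pos R s hs' k i).ne')
    simp only [h3] at h4
    rw [← hDen, ← hNum, coe_evalRingHom] at h4
    show eval (s:ℂ) (b * (Den - Num)) = eval (s:ℂ) (X * Q * Den)
    rw [eval_mul, eval_sub, eval_mul, eval_mul, eval_X, ← h1, ← h4]
    linear_combination (-(eval (s:ℂ) b * eval (s:ℂ) Den)) * h2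
  refine ⟨b - X * Q, ?_⟩
  have hA : algebraMap ℂ[X] (RatFunc ℂ) Den ≠ 0 := by
    rw [Ne, FaithfulSMul.algebraMap_eq_zero_iff]; exact hDen0
  refine mul_left_cancel₀ hA ?_
  rw [mul_left_comm, hZ, ← map_mul, ← map_mul]
  congr 1
  linear_combination -hkey


end Pool.Agent.H628R4.TP
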