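import Pool.Agent.H628R4.TP.Coef
import Pool.Agent.H628R4.TP.Gen

set_option autoImplicit false

namespace Pool.Agent.H628R4.TP

open MeasureTheory MvPolynomial Set Filter Topology Pool.Agent.H628R4.TZ

section general

variable {r : ℕ}

lemma D_big (ε : ℝ) (hε : 0 < ε) (y : Fin r → ℝ) (m : Fin r) (hm : ε < y m)
    (p : MvPolynomial (Fin r) ℂ) : D (ph ε) y (X m * p) = 0 := by
  induction p using MvPolynomial.induction_on' with
  | monomial u a =>
    rw [X, monomial_mul, D_monomial]
    have : W (ph ε) (Finsupp.single m 1 + u) y = 0 := by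
      unfold W
      refine Finset.prod_eq_zero (Finset.mem_univ m) (ph_big ε hε _ ?_ _ hm)
      simp
    rw [this]; simp
  | add p q hp hq => rw [mul_add, map_add, hp, hq, add_zero]

lemma D_neg (ε : ℝ) (hε : 0 < ε) (y : Fin r → ℝ) (m : Fin r) (hm : y m < 0)
    (p : MvPolynomial (Fin r) ℂ) : D (ph ε) y p = 0 := by
  induction p using MvPolynomial.induction_on' with
  | monomial u a =>
    rw [D_monomial]
    have : W (ph ε) u y = 0 := by
      unfold W
      exact Finset.prod_eq_zero (Finset.mem_univ m) (ph_neg ε hε _ _ hm)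
    rw [this]; simp
  | add p q hp hq => rw [map_add, hp, hq, add_zero]

end general

variable {K r N : ℕ}

/-- the sum of the variables `X_J` with `J k = j` -/
noncomputable def Akj (k : Fin K) (j : Fin r) :
    MvPolynomial (Fin (Fintype.card (Fin K → Fin r))) ℂ :=
  ∑ m, if (Fintype.equivFin (Fin K → Fin r)).symm m k = j then X m else 0

lemma D_Akj (ε : ℝ) (hε : 0 < ε) (y : Fin (Fintype.card (Fin K → Fin r)) → ℝ) (k : Fin K)
    (j : Fin r) (h : ∀ m, (Fintype.equivFin (Fin K → Fin r)).symm m k = j → ε < y m)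
    (p : MvPolynomial (Fin (Fintype.card (Fin K → Fin r))) ℂ) :
    D (ph ε) y (Akj k j * p) = 0 := by
  unfold Akj
  rw [Finset.sum_mul, map_sum]
  refine Finset.sum_eq_zero fun m _ => ?_
  split_ifs with hm
  · exact D_big ε hε y m (h m hm) p
  · simp

lemma Y_prod (v : Fin K → Fin r → Fin N → ℕ) (T : ℝ) (x : Fin (N+1) → ℝ)
    (m : Fin (Fintype.card (Fin K → Fin r))) :
    Y (av (prodExp v)) (fun _ => -T) x m =
      ∑ k, (∑ i, (v k ((Fintype.equivFin (Fin K → Fin r)).symm m k) i : ℝ) * x i.succ) -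
        x 0 - T := by
  rw [Y_av]
  congr 2
  unfold prodExp
  push_cast
  simp only [Finset.sum_mul]
  exact Finset.sum_comm

lemma D_prod_zero (v : Fin K → Fin r → Fin N → ℕ) (c : Fin K → Fin r → ℤ)
    (hc : ∀ k, ∑ j, c k j = 1) (ε T : ℝ) (hε : 0 < ε)
    (hT : ε * ∑ k, ∑ j, |(c k j : ℝ)| < T) (x : Fin (N+1) → ℝ) (hx : ∀ i, 0 ≤ x i)
    (hx0 : ∀ i : Fin N, 0 < Sh v c (Sum.inl i) → x i.succ = 0)
    (q : MvPolynomial (Fin (Fintype.card (Fin K → Fin r))) ℂ) :
    D (ph ε) (Y (av (prodExp v)) (fun _ => -T) x)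
      ((∏ k, ∏ j, if c k j < 0 then Akj k j else 1) * q) = 0 := by
  classical
  set y := Y (av (prodExp v)) (fun _ => -T) x with hy
  by_contra hne
  have h1 : ∀ m, 0 ≤ y m := by
    intro m
    by_contra h
    exact hne (D_neg ε hε y m (not_le.1 h) _)
  have h2 : ∀ k j, c k j < 0 → ∃ m, (Fintype.equivFin (Fin K → Fin r)).symm m k = j ∧
      y m ≤ ε := by
    intro k j hkj
    by_contra h
    push Not at h
    apply hne
    have h3 : (∏ k, ∏ j, if c k j < 0 then (Akj k j :
        MvPolynomial (Fin (Fintype.card (Fin K → Fin r))) ℂ) else 1) =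
        Akj k j * ((∏ j' ∈ Finset.univ.erase j, if c k j' < 0 then Akj k j' else 1) *
          ∏ k' ∈ Finset.univ.erase k, ∏ j, if c k' j < 0 then Akj k' j else 1) := by
      rw [← Finset.mul_prod_erase Finset.univ _ (Finset.mem_univ k),
        ← Finset.mul_prod_erase Finset.univ (fun j => if c k j < 0 then Akj k j else 1)
          (Finset.mem_univ j), if_pos hkj, mul_assoc]
    rw [h3, mul_assoc]
    exact D_Akj ε hε y k j h _
  set n : Fin K → Fin r → ℝ := fun k j => ∑ i, (v k j i : ℝ) * x i.succ with hn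
  have hmin : ∀ k, ∃ j0, ∀ j, n k j0 ≤ n k j := by
    intro k
    have : Nonempty (Fin r) := by
      by_contra h
      rw [not_nonempty_iff] at h
      have := hc k
      simp at this
    exact Finite.exists_min (n k)
  choose js hjs using hmin
  have hyn : ∀ m, y m = ∑ k, n k ((Fintype.equivFin (Fin K → Fin r)).symm m k) - (x 0 + T) := by
    intro m
    rw [hy, Y_prod, sub_sub]
  have h4 : x 0 + T ≤ ∑ k, n k (js k) := by
    have := h1 (Fintype.equivFin (Fin K → Fin r) js)
    rw [hyn, Equiv.symm_apply_apply] at this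
    linarith
  have h5 : ∀ k j, c k j < 0 → n k j - n k (js k) ≤ ε := by
    intro k j hkj
    obtain ⟨m, hm, hm2⟩ := h2 k j hkj
    rw [hyn] at hm2
    have h6 : n k j - n k (js k) ≤
        ∑ k', (n k' ((Fintype.equivFin (Fin K → Fin r)).symm m k') - n k' (js k')) := by
      have := Finset.single_le_sum (f := fun k' =>
        n k' ((Fintype.equivFin (Fin K → Fin r)).symm m k') - n k' (js k'))
        (fun k' _ => sub_nonneg.2 (hjs k' _)) (Finset.mem_univ k)
      simpa [hm] using this
    rw [Finset.sum_sub_distrib] at h6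
    linarith
  have h7 : ∑ k, ∑ j, (c k j : ℝ) * n k j ≤ 0 := by
    have h8 : ∑ k, ∑ j, (c k j : ℝ) * n k j =
        ∑ i : Fin N, ((Sh v c (Sum.inl i) : ℤ) : ℝ) * x i.succ := by
      simp only [hn, Sh, Sum.elim_inl, Finset.mul_sum]
      push_cast
      simp only [Finset.sum_mul]
      symm
      rw [Finset.sum_comm]
      refine Finset.sum_congr rfl fun k _ => ?_
      rw [Finset.sum_comm]
      exact Finset.sum_congr rfl fun j _ => Finset.sum_congr rfl fun i _ => by ring
    rw [h8]
    refine Finset.sum_nonpos fun i _ => ?_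
    rcases lt_or_ge 0 (Sh v c (Sum.inl i)) with h | h
    · rw [hx0 i h, mul_zero]
    · exact mul_nonpos_of_nonpos_of_nonneg (by exact_mod_cast h) (hx _)
  have h9 : ∀ k, n k (js k) - ∑ j, |(c k j : ℝ)| * ε ≤ ∑ j, (c k j : ℝ) * n k j := by
    intro k
    have hcR : ∑ j, (c k j : ℝ) = 1 := by exact_mod_cast hc k
    have h10 : ∑ j, (c k j : ℝ) * n k j = n k (js k) + ∑ j, (c k j : ℝ) * (n k j - n k (js k)) := by
      simp only [mul_sub]
      rw [Finset.sum_sub_distrib, ← Finset.sum_mul, hcR]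
      ring
    rw [h10, sub_eq_add_neg, ← Finset.sum_neg_distrib]
    refine add_le_add_right (Finset.sum_le_sum fun j _ => ?_) _
    rcases lt_or_ge (c k j) 0 with h | h
    · have h' : (c k j : ℝ) < 0 := by exact_mod_cast h
      rw [abs_of_neg h']
      nlinarith [h5 k j h]
    · have h' : (0:ℝ) ≤ c k j := by exact_mod_cast h
      rw [abs_of_nonneg h']
      nlinarith [sub_nonneg.2 (hjs k j), mul_nonneg h' (sub_nonneg.2 (hjs k j)),
        mul_nonneg h' hε.le]
  have h11 := Finset.sum_le_sum fun k (_ : k ∈ Finset.univ) => h9 k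
  rw [Finset.sum_sub_distrib] at h11
  have h12 : ∑ k, ∑ j, |(c k j : ℝ)| * ε = ε * ∑ k, ∑ j, |(c k j : ℝ)| := by
    rw [Finset.mul_sum]
    exact Finset.sum_congr rfl fun k _ => by
      rw [Finset.mul_sum]; exact Finset.sum_congr rfl fun j _ => mul_comm _ _
  have := hx 0
  linarith

end Pool.Agent.H628R4.TP
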