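import Pool.Agent.H628R4.TP.LocDefs
import Pool.Agent.H628R4.TP.Of

set_option autoImplicit false

namespace Pool.Agent.H628R4.TP

open MvPolynomial

variable {σ : Type} [Fintype σ]

lemma desc_ratio (n k l : ℕ) (h : k ≤ l) :
    (n.descFactorial l : ℂ) = (n.descFactorial k : ℂ) *
      (descPochhammer ℂ (l - k)).eval ((n : ℂ) - k) := by
  obtain ⟨d, rfl⟩ := Nat.exists_eq_add_of_le h
  rw [← descPochhammer_eval_eq_descFactorial ℂ n (k + d), ← descPochhammer_mul,
    Polynomial.eval_mul, descPochhammer_eval_eq_descFactorial, Polynomial.eval_comp]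
  simp

lemma actL (a : MvPowerSeries σ ℂ) (P : Module.End ℂ (MvPolynomial σ ℂ)) (hP : Act P) :
    ∃ (Q : (σ → ℤ) → MvPolynomial σ ℂ) (B : ℤ), (∀ u, Q u ≠ 0 → ∀ x, u x ≤ B) ∧
      ∀ (u : σ → ℤ) (n n' : σ →₀ ℕ), (∀ i, (n i : ℤ) = n' i + u i) →
        MvPowerSeries.coeff n' (a * ((P (monomial n 1) : MvPolynomial σ ℂ) : MvPowerSeries σ ℂ)) =
          eval (fun i => (n i : ℂ)) (Q u) * ∏ i, ((n i).descFactorial (u i).toNat : ℂ) := by
  classical
  obtain ⟨q, hqf, hq⟩ := hP
  set F := hqf.toFinset with hF
  set dn : (σ → ℤ) → (σ → ℤ) → (σ →₀ ℕ) := fun u u' =>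
    Finsupp.equivFunOnFinite.symm fun x => (u' x - u x).toNat with hdn
  refine ⟨fun u => ∑ u' ∈ F, if ∀ x, u x ≤ u' x then
      C (MvPowerSeries.coeff (dn u u') a) * q u' *
        ∏ x, Polynomial.aeval (X x - C (((u x).toNat : ℕ) : ℂ) : MvPolynomial σ ℂ)
          (descPochhammer ℂ ((u' x).toNat - (u x).toNat)) else 0,
    ∑ u' ∈ F, ∑ x, |u' x|, fun u hu x => ?_, fun u n n' h => ?_⟩
  · obtain ⟨u', hu', hne⟩ := Finset.exists_ne_zero_of_sum_ne_zero hu
    have h1 : ∀ x, u x ≤ u' x := by
      by_contra h
      rw [if_neg h] at hne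
      exact hne rfl
    refine (h1 x).trans ((le_abs_self _).trans ?_)
    refine (Finset.single_le_sum (f := fun x => |u' x|) (fun _ _ => abs_nonneg _)
      (Finset.mem_univ x)).trans ?_
    exact Finset.single_le_sum (f := fun u' : σ → ℤ => ∑ x, |u' x|)
      (fun _ _ => Finset.sum_nonneg fun _ _ => abs_nonneg _) hu'
  · rw [MvPowerSeries.coeff_mul]
    set G : (σ → ℤ) → ℂ := fun u' => MvPowerSeries.coeff (dn u u') a *
      (eval (fun i => (n i : ℂ)) (q u') * ∏ i, ((n i).descFactorial (u' i).toNat : ℂ)) with hG
    have h1 : ∀ p ∈ Finset.HasAntidiagonal.antidiagonal n', MvPowerSeries.coeff p.1 a *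
        MvPowerSeries.coeff p.2 ((P (monomial n 1) : MvPolynomial σ ℂ) : MvPowerSeries σ ℂ) =
        ∑ u' ∈ F, if u' = (fun x => u x + p.1 x) then G u' else 0 := by
      intro p hp
      rw [Finset.HasAntidiagonal.mem_antidiagonal] at hp
      have h2 : ∀ i, (n i : ℤ) = p.2 i + (fun x => u x + (p.1 x : ℤ)) i := by
        intro i
        have := DFunLike.congr_fun hp i
        have h3 := h i
        rw [← this] at h3
        simp only [Finsupp.add_apply] at h3
        push_cast at h3
        simp only
        linarith
      rw [coeff_coe, hq _ n p.2 h2, Finset.sum_ite_eq']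
      have h4 : dn u (fun x => u x + (p.1 x : ℤ)) = p.1 := by
        ext x
        simp [hdn]
      split_ifs with hmem
      · rw [hG]
        simp only
        rw [h4]
      · have : q (fun x => u x + (p.1 x : ℤ)) = 0 := by
          by_contra hne
          exact hmem ((Set.Finite.mem_toFinset hqf).2 hne)
        rw [this]; simp
    rw [Finset.sum_congr rfl h1, Finset.sum_comm]
    rw [map_sum, Finset.sum_mul]
    refine Finset.sum_congr rfl fun u' hu' => ?_
    by_cases hle : ∀ x, u x ≤ u' x
    · rw [if_pos hle]
      have h5 : eval (fun i => (n i : ℂ)) (C (MvPowerSeries.coeff (dn u u') a) * q u' *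
          ∏ x, Polynomial.aeval (X x - C (((u x).toNat : ℕ) : ℂ) : MvPolynomial σ ℂ)
          (descPochhammer ℂ ((u' x).toNat - (u x).toNat))) *
          ∏ i, ((n i).descFactorial (u i).toNat : ℂ) = G u' := by
        rw [map_mul, map_mul, eval_C, map_prod, hG]
        simp only
        rw [mul_assoc, mul_assoc, ← Finset.prod_mul_distrib]
        congr 2
        refine Finset.prod_congr rfl fun x _ => ?_
        have h6 : eval (fun i => (n i : ℂ)) (Polynomial.aeval
            (X x - C (((u x).toNat : ℕ) : ℂ) : MvPolynomial σ ℂ)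
            (descPochhammer ℂ ((u' x).toNat - (u x).toNat))) =
            (descPochhammer ℂ ((u' x).toNat - (u x).toNat)).eval ((n x : ℂ) - (u x).toNat) := by
          rw [Polynomial.aeval_def, Polynomial.hom_eval₂]
          have : (eval fun i => (n i : ℂ)).comp (algebraMap ℂ (MvPolynomial σ ℂ)) =
            RingHom.id ℂ := by ext; simp
          rw [this, Polynomial.eval₂_id]
          simp
        rw [h6, desc_ratio (n x) (u x).toNat (u' x).toNat (by have := hle x; omega)]
        ring
      rw [h5]
      by_cases hn : dn u u' ≤ n'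
      · rw [Finset.sum_eq_single (dn u u', n' - dn u u')]
        · rw [if_pos]
          funext x
          have := hle x
          simp only [hdn, Finsupp.equivFunOnFinite_symm_apply_apply]
          omega
        · rintro ⟨p1, p2⟩ hp hne
          rw [if_neg]
          rintro rfl
          apply hne
          rw [Finset.HasAntidiagonal.mem_antidiagonal] at hp
          have h7 : dn u (fun x => u x + (p1 x : ℤ)) = p1 := by
            ext x
            simp [hdn]
          simp only at hp
          rw [h7, ← hp]
          simp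
        · intro hno
          exfalso
          apply hno
          rw [Finset.HasAntidiagonal.mem_antidiagonal]
          exact add_tsub_cancel_of_le hn
      · have hG0 : G u' = 0 := by
          rw [Finsupp.le_def] at hn
          push Not at hn
          obtain ⟨x, hx⟩ := hn
          rw [hG]
          simp only
          rw [Finset.prod_eq_zero (Finset.mem_univ x), mul_zero, mul_zero]
          have h8 := h x
          simp only [hdn, Finsupp.equivFunOnFinite_symm_apply_apply] at hx
          rw [Nat.descFactorial_eq_zero_iff_lt.2 (by omega)]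
          simp
        rw [hG0]
        exact Finset.sum_eq_zero fun p _ => by split_ifs <;> rfl
    · rw [if_neg hle, map_zero, zero_mul]
      refine Finset.sum_eq_zero fun p _ => ?_
      rw [if_neg]
      rintro rfl
      exact hle fun x => by simp

end Pool.Agent.H628R4.TP
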