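import Pool.Agent.H628R4.TP.Defs

set_option autoImplicit false

namespace Pool.Agent.H628R4.TP

/-- `b(s) f ^ s = P(s) f ^ (s + 1)` for some `P(s) = ∑_i s ^ (m i) a_i Q_i`, where the `a_i` are
formal power series at the origin and the `Q_i` are in the Weyl algebra (these are the elements of
`D[s]`, `D` being the ring of differential operators with formal power series coefficients; it
contains the operators with convergent power series coefficients). The equation is stated for all
`s ∈ ℕ`; this is equivalent to the formal equation. -/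
def IsLocalBFunction {σ : Type} (f : MvPolynomial σ ℂ) (b : Polynomial ℂ) : Prop :=
  ∃ (L : ℕ) (m : Fin L → ℕ) (a : Fin L → MvPowerSeries σ ℂ) (Q : Fin L → weylS σ),
    ∀ s : ℕ, MvPowerSeries.C (b.eval (s : ℂ)) * ((f ^ s : MvPolynomial σ ℂ) : MvPowerSeries σ ℂ) =
      ∑ i, MvPowerSeries.C ((s : ℂ) ^ m i) * (a i *
        (((Q i : Module.End ℂ (MvPolynomial σ ℂ)) (f ^ (s + 1)) : MvPolynomial σ ℂ) :
          MvPowerSeries σ ℂ))

end Pool.Agent.H628R4.TP
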