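import Pool.Agent.H628R4.TP.LocAct

set_option autoImplicit false

namespace Pool.Agent.H628R4.TP

open MvPolynomial Pool.Agent.H628R4.TZ

variable {K r N : ℕ}

lemma coe_sum_ps {σ ι : Type} (s : Finset ι) (f : ι → MvPolynomial σ ℂ) :
    ((∑ i ∈ s, f i : MvPolynomial σ ℂ) : MvPowerSeries σ ℂ) =
      ∑ i ∈ s, ((f i : MvPolynomial σ ℂ) : MvPowerSeries σ ℂ) := by
  exact map_sum (MvPolynomial.coeToMvPowerSeries.ringHom (σ := σ) (R := ℂ)) f s

/-- The numerical relation, local case. -/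
theorem num_rel_loc (v : Fin K → Fin r → Fin N → ℕ) (b : Polynomial ℂ)
    (hb : IsLocalBFunction (prodPoly v) b) : NumRel v b := by
  classical
  obtain ⟨L, mm, a, P, hP⟩ := hb
  choose Q B hB hQ using fun (i : Fin L) =>
    actL (a i) (P i : Module.End ℂ (MvPolynomial (Fin N ⊕ (Fin K × Fin r)) ℂ))
      (act_weyl (P i : Module.End ℂ (MvPolynomial (Fin N ⊕ (Fin K × Fin r)) ℂ)) (P i).2)
  set BB : ℤ := ∑ i, |B i| with hBB
  have hBB0 : 0 ≤ BB := Finset.sum_nonneg fun _ _ => abs_nonneg _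
  have hfin : ({c : Fin K → Fin r → ℤ | (∀ k, ∑ j, c k j = 1) ∧
      ∃ m ∈ (Finset.univ : Finset (Fin L)), Q m (Sh v c) ≠ 0} : Set _).Finite := by
    refine (Set.finite_Icc (fun (_ : Fin K) (_ : Fin r) => -((r : ℤ) * BB))
      (fun _ _ => BB)).subset fun c hc => ?_
    obtain ⟨hc1, m, _, hm⟩ := hc
    have hub : ∀ k j, c k j ≤ BB := by
      intro k j
      have h1 := hB m _ hm (Sum.inr (k, j))
      have h2 : B m ≤ BB := (le_abs_self _).trans
        (Finset.single_le_sum (f := fun i => |B i|) (fun _ _ => abs_nonneg _) (Finset.mem_univ m))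
      exact (show c k j ≤ B m from h1).trans h2
    refine ⟨fun k j => ?_, fun k j => hub k j⟩
    have h3 := hc1 k
    rw [← Finset.add_sum_erase _ _ (Finset.mem_univ j)] at h3
    have h4 : ∑ j' ∈ Finset.univ.erase j, c k j' ≤ ∑ j' ∈ Finset.univ.erase j, BB :=
      Finset.sum_le_sum fun j' _ => hub k j'
    rw [Finset.sum_const, Finset.card_erase_of_mem (Finset.mem_univ j), Finset.card_univ,
      Fintype.card_fin, nsmul_eq_mul] at h4
    have h5 : ((r - 1 : ℕ) : ℤ) * BB ≤ (r : ℤ) * BB :=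
      mul_le_mul_of_nonneg_right (by exact_mod_cast Nat.sub_le r 1) hBB0
    show -((r : ℤ) * BB) ≤ c k j
    linarith
  -- combine the terms with equal power of `s`
  suffices hsuff : ∀ (n : ℕ) (α : Fin K → Fin r → ℕ), α ∈ Sn K r n →
        b.eval (n : ℂ) = ((n : ℂ) + 1) ^ K * ∑ c ∈ hfin.toFinset,
          if ∀ k j, 0 ≤ (α k j : ℤ) + c k j then
          (∏ k, ∏ j, ((α k j).descFactorial (-c k j).toNat : ℂ)) *
          (∏ i, (((∑ k, ∑ j, α k j * v k j i : ℕ) + Sh v c (Sum.inl i)).toNat.descFactorial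
            (Sh v c (Sum.inl i)).toNat : ℂ)) *
          ∑ m ∈ (Finset.univ : Finset (Fin L)), (n : ℂ) ^ (mm m) *
            eval (fun x => ((Ex v α x : ℕ) : ℂ) + ((Sh v c x : ℤ) : ℂ)) (Q m (Sh v c))
          else 0 by
    refine ⟨hfin.toFinset, Finset.univ.image mm,
      fun t c => ∑ m ∈ (Finset.univ : Finset (Fin L)), if mm m = t then Q m (Sh v c) else 0,
      fun c hc => ((Set.Finite.mem_toFinset hfin).1 hc).1, fun n α hα => ?_⟩
    rw [hsuff n α hα]
    congr 1
    refine Finset.sum_congr rfl fun c _ => ?_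
    congr 1
    congr 1
    simp only [map_sum, Finset.mul_sum]
    rw [Finset.sum_comm]
    refine Finset.sum_congr rfl fun m _ => ?_
    rw [Finset.sum_eq_single (mm m)]
    · rw [if_pos rfl]
    · intro t _ ht
      rw [if_neg (Ne.symm ht)]; simp
    · intro h
      exact absurd (Finset.mem_image_of_mem mm (Finset.mem_univ m)) h
  intro n α hα
  have h1 := congrArg (MvPowerSeries.coeff (Ex v α)) (hP n)
  rw [MvPowerSeries.coeff_C_mul, coeff_coe, coeff_pow v n α hα, map_sum] at h1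
  -- the coefficient for the shift
  set F : (Fin K → Fin r → ℕ) → ℂ := fun γ =>
    ((∏ k, Nat.multinomial Finset.univ (γ k) : ℕ) : ℂ) * ∑ m ∈ (Finset.univ : Finset (Fin L)), (n : ℂ) ^ (mm m) *
      (eval (fun x => ((Ex v γ x : ℕ) : ℂ)) (Q m (Sh v fun k j => (γ k j : ℤ) - α k j)) *
      ∏ x, ((Ex v γ x).descFactorial (Sh v (fun k j => (γ k j : ℤ) - α k j) x).toNat : ℂ)) with hF
  have hsh : ∀ γ : Fin K → Fin r → ℕ, ∀ x, ((Ex v γ x : ℕ) : ℤ) =
      (Ex v α x : ℕ) + Sh v (fun k j => (γ k j : ℤ) - α k j) x := by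
    intro γ x
    rcases x with i | ⟨k, j⟩
    · simp only [Ex, Sh, Finsupp.equivFunOnFinite_symm_apply_apply, Sum.elim_inl]
      push_cast
      rw [← Finset.sum_add_distrib]
      refine Finset.sum_congr rfl fun k _ => ?_
      rw [← Finset.sum_add_distrib]
      exact Finset.sum_congr rfl fun j _ => by ring
    · simp [Ex, Sh]
  have h2 : b.eval (n : ℂ) * ((∏ k, Nat.multinomial Finset.univ (α k) : ℕ) : ℂ) =
      ∑ γ ∈ Sn K r (n+1), F γ := by
    rw [h1]
    have h3 : ∀ m ∈ (Finset.univ : Finset (Fin L)), MvPowerSeries.coeff (Ex v α)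
        (MvPowerSeries.C ((n : ℂ) ^ (mm m)) * (a m *
        (((P m : Module.End ℂ (MvPolynomial (Fin N ⊕ (Fin K × Fin r)) ℂ)) (prodPoly v ^ (n+1)) :
          MvPolynomial (Fin N ⊕ (Fin K × Fin r)) ℂ) :
          MvPowerSeries (Fin N ⊕ (Fin K × Fin r)) ℂ))) =
        ∑ γ ∈ Sn K r (n+1), (n : ℂ) ^ (mm m) * (((∏ k, Nat.multinomial Finset.univ (γ k) : ℕ) : ℂ) *
        (eval (fun x => ((Ex v γ x : ℕ) : ℂ)) (Q m (Sh v fun k j => (γ k j : ℤ) - α k j)) *
        ∏ x, ((Ex v γ x).descFactorial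
          (Sh v (fun k j => (γ k j : ℤ) - α k j) x).toNat : ℂ))) := by
      intro m _
      rw [MvPowerSeries.coeff_C_mul, pow_expand, map_sum, coe_sum_ps, Finset.mul_sum, map_sum,
        Finset.mul_sum]
      refine Finset.sum_congr rfl fun γ _ => ?_
      congr 1
      have h4 : (monomial (Ex v γ) ((∏ k, Nat.multinomial Finset.univ (γ k) : ℕ) : ℂ) :
          MvPolynomial (Fin N ⊕ (Fin K × Fin r)) ℂ) =
          ((∏ k, Nat.multinomial Finset.univ (γ k) : ℕ) : ℂ) • monomial (Ex v γ) 1 := by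
        rw [smul_monomial, smul_eq_mul, mul_one]
      rw [h4, map_smul, coe_smul, mul_smul_comm, MvPowerSeries.coeff_smul,
        hQ m _ _ _ (hsh γ)]
    rw [Finset.sum_congr rfl h3, Finset.sum_comm]
    refine Finset.sum_congr rfl fun γ _ => ?_
    rw [hF]
    simp only [Finset.mul_sum]
    exact Finset.sum_congr rfl fun m _ => by ring
  -- reindexing
  have h5 : ∑ γ ∈ Sn K r (n+1), F γ = ∑ c ∈ hfin.toFinset,
      if ∀ k j, 0 ≤ (α k j : ℤ) + c k j then F (fun k j => ((α k j : ℤ) + c k j).toNat) else 0 := by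
    rw [← Finset.sum_filter]
    have h6 : ∑ γ ∈ Sn K r (n+1), F γ =
        ∑ γ ∈ (Sn K r (n+1)).filter (fun γ => (fun k j => (γ k j : ℤ) - α k j) ∈ hfin.toFinset),
          F γ := by
      rw [Finset.sum_filter_of_ne]
      intro γ hγ hne
      rw [Set.Finite.mem_toFinset]
      refine ⟨fun k => ?_, ?_⟩
      · rw [Finset.sum_sub_distrib]
        have h7 := mem_Sn.1 hγ k
        have h8 := mem_Sn.1 hα k
        rw [← Nat.cast_sum, ← Nat.cast_sum, h7, h8]
        push_cast
        ring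
      · by_contra hno
        push Not at hno
        apply hne
        rw [hF]
        simp only
        rw [Finset.sum_eq_zero, mul_zero]
        intro m hm
        rw [hno m hm]
        simp
    rw [h6]
    refine Finset.sum_bij' (fun γ _ => fun k j => (γ k j : ℤ) - α k j)
      (fun c _ => fun k j => ((α k j : ℤ) + c k j).toNat) ?_ ?_ ?_ ?_ ?_
    · intro γ hγ
      rw [Finset.mem_filter] at hγ ⊢
      refine ⟨hγ.2, fun k j => ?_⟩
      show 0 ≤ (α k j : ℤ) + ((γ k j : ℤ) - α k j)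
      omega
    · intro c hc
      rw [Finset.mem_filter] at hc ⊢
      have h9 := ((Set.Finite.mem_toFinset hfin).1 hc.1).1
      have h10 : ∀ k j, ((((α k j : ℤ) + c k j).toNat : ℕ) : ℤ) = (α k j : ℤ) + c k j :=
        fun k j => Int.toNat_of_nonneg (hc.2 k j)
      refine ⟨mem_Sn.2 fun k => ?_, ?_⟩
      · have h8 := mem_Sn.1 hα k
        have : ((∑ j, ((α k j : ℤ) + c k j).toNat : ℕ) : ℤ) = ((n + 1 : ℕ) : ℤ) := by
          rw [Nat.cast_sum, Finset.sum_congr rfl fun j _ => h10 k j, Finset.sum_add_distrib,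
            h9 k, ← Nat.cast_sum, h8]
          push_cast
          ring
        exact_mod_cast this
      · have : (fun k j => ((((α k j : ℤ) + c k j).toNat : ℕ) : ℤ) - α k j) = c := by
          funext k j
          rw [h10]
          ring
        rw [this]
        exact hc.1
    · intro γ _
      funext k j
      simp
    · intro c hc
      rw [Finset.mem_filter] at hc
      funext k j
      have := Int.toNat_of_nonneg (hc.2 k j)
      simp only
      omega
    · intro γ _
      congr 1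
      funext k j
      simp
  have hfac : (∏ k, ∏ j, ((α k j).factorial : ℂ)) ≠ 0 :=
    Finset.prod_ne_zero_iff.2 fun k _ => Finset.prod_ne_zero_iff.2 fun j _ => by
      exact_mod_cast Nat.factorial_ne_zero _
  have hn : ((n.factorial : ℂ)) ≠ 0 := by exact_mod_cast Nat.factorial_ne_zero _
  have h11 : b.eval (n : ℂ) * (n.factorial : ℂ) ^ K =
      (∏ k, ∏ j, ((α k j).factorial : ℂ)) * ∑ c ∈ hfin.toFinset,
      if ∀ k j, 0 ≤ (α k j : ℤ) + c k j then F (fun k j => ((α k j : ℤ) + c k j).toNat) else 0 := by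
    rw [← h5, ← h2, ← fact_mult n α hα]
    ring
  have h12 : ((n + 1).factorial : ℂ) = ((n : ℂ) + 1) * (n.factorial : ℂ) := by
    rw [Nat.factorial_succ]; push_cast; ring
  refine mul_right_cancel₀ (pow_ne_zero K hn) ?_
  rw [h11, mul_right_comm, ← mul_pow, ← h12, Finset.mul_sum, Finset.mul_sum]
  refine Finset.sum_congr rfl fun c hc => ?_
  split_ifs with hpos
  swap
  · simp
  have h9 := ((Set.Finite.mem_toFinset hfin).1 hc).1
  have h10 : ∀ k j, ((((α k j : ℤ) + c k j).toNat : ℕ) : ℤ) = (α k j : ℤ) + c k j :=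
    fun k j => Int.toNat_of_nonneg (hpos k j)
  set γ : Fin K → Fin r → ℕ := fun k j => ((α k j : ℤ) + c k j).toNat with hγ
  have hc' : (fun k j => (γ k j : ℤ) - α k j) = c := by
    funext k j
    rw [hγ]
    simp only
    rw [h10]
    ring
  have hγS : γ ∈ Sn K r (n+1) := by
    refine mem_Sn.2 fun k => ?_
    have h8 := mem_Sn.1 hα k
    have : ((∑ j, γ k j : ℕ) : ℤ) = ((n + 1 : ℕ) : ℤ) := by
      rw [Nat.cast_sum, Finset.sum_congr rfl fun j _ => h10 k j, Finset.sum_add_distrib,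
        h9 k, ← Nat.cast_sum, h8]
      push_cast
      ring
    exact_mod_cast this
  have hshc := hsh γ
  rw [hc'] at hshc
  rw [hF]
  simp only
  rw [hc']
  have h13 : ∀ x, ((Ex v γ x : ℕ) : ℂ) = ((Ex v α x : ℕ) : ℂ) + ((Sh v c x : ℤ) : ℂ) := by
    intro x
    exact_mod_cast hshc x
  simp only [h13]
  have h14 : ∏ x, ((Ex v γ x).descFactorial (Sh v c x).toNat : ℂ) =
      (∏ i, (((∑ k, ∑ j, α k j * v k j i : ℕ) + Sh v c (Sum.inl i)).toNat.descFactorial
            (Sh v c (Sum.inl i)).toNat : ℂ)) *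
      ∏ k, ∏ j, ((γ k j).descFactorial (c k j).toNat : ℂ) := by
    rw [Fintype.prod_sum_type, Fintype.prod_prod_type]
    congr 1
    · refine Finset.prod_congr rfl fun i _ => ?_
      have h15 : Ex v γ (Sum.inl i) =
          ((∑ k, ∑ j, α k j * v k j i : ℕ) + Sh v c (Sum.inl i)).toNat := by
        have h16 := hshc (Sum.inl i)
        have h17 : Ex v α (Sum.inl i) = ∑ k, ∑ j, α k j * v k j i := by simp [Ex]
        rw [h17] at h16
        omega
      rw [h15]
  have h18 : (∏ k, ∏ j, ((α k j).factorial : ℂ)) *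
      ∏ k, ∏ j, ((γ k j).descFactorial (c k j).toNat : ℂ) =
      (∏ k, ∏ j, ((γ k j).factorial : ℂ)) *
      ∏ k, ∏ j, ((α k j).descFactorial (-c k j).toNat : ℂ) := by
    simp only [← Finset.prod_mul_distrib]
    exact Finset.prod_congr rfl fun k _ => Finset.prod_congr rfl fun j _ =>
      fact_id (α k j) (c k j) (hpos k j)
  have h19 := fact_mult (n+1) γ hγS
  rw [h14, ← h19]
  simp only [← mul_assoc, ← Finset.sum_mul]
  linear_combination (((∏ k, Nat.multinomial Finset.univ (γ k) : ℕ) : ℂ) *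
    (∑ m ∈ (Finset.univ : Finset (Fin L)), (n : ℂ) ^ (mm m) * eval (fun x => ((Ex v α x : ℕ) : ℂ) + ((Sh v c x : ℤ) : ℂ))
      (Q m (Sh v c))) *
    (∏ i, (((∑ k, ∑ j, α k j * v k j i : ℕ) + Sh v c (Sum.inl i)).toNat.descFactorial
            (Sh v c (Sum.inl i)).toNat : ℂ))) * h18

end Pool.Agent.H628R4.TP
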