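import Pool.Agent.H628R4.TP.Ker

set_option autoImplicit false

namespace Pool.Agent.H628R4.TP

open MeasureTheory MvPolynomial Pool.Agent.H628R4.TZ

variable {K r N : ℕ}

def Bs (v : Fin K → Fin r → Fin N → ℕ) (c : Fin K → Fin r → ℤ) : Finset (Fin N) :=
  Finset.univ.filter fun i => 0 < Sh v c (Sum.inl i)

lemma Φ_prod_zero (v : Fin K → Fin r → Fin N → ℕ) (c : Fin K → Fin r → ℤ)
    (hc : ∀ k, ∑ j, c k j = 1) (ε T : ℝ) (hε : 0 < ε)
    (hT : ε * ∑ k, ∑ j, |(c k j : ℝ)| < T) (s : ℝ) (hs : 0 < s)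
    (q : MvPolynomial (Fin (Fintype.card (Fin K → Fin r))) ℂ) :
    Φ (ph ε) ∅ (lm (N := N) s) (av (prodExp v)) (fun _ => -T)
      ((∏ i ∈ Bs v c, el (prodExp v) i) *
        ((∏ k, ∏ j, if c k j < 0 then Akj k j else 1) * q)) = 0 := by
  have h1 : (∏ i ∈ Bs v c, el (prodExp v) i) = ∏ i ∈ (Bs v c).map (Fin.succEmb N),
      (C ((lm (N := N) s i : ℝ) : ℂ) + Lf (fun j => av (prodExp v) j i)) := by
    rw [Finset.prod_map]
    refine Finset.prod_congr rfl fun i _ => ?_
    simp [el, lm, av]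
  rw [h1, Φ_steps (ph_dseq ε hε) ∅ _ (lm_pos s hs) _ _ _ (by simp)]
  refine Φ_eq_zero _ _ _ _ _ fun x hx hx0 => ?_
  refine D_prod_zero v c hc ε T hε hT x hx (fun i hi => hx0 _ ?_) q
  simp only [Finset.union_empty, Finset.mem_map]
  exact ⟨i, by simp [Bs, hi], rfl⟩

lemma kills_of_rel (v : Fin K → Fin r → Fin N → ℕ) (b : Polynomial ℂ)
    (S : Finset (Fin K → Fin r → ℤ))
    (q : (Fin K → Fin r → ℤ) → MvPolynomial (Fin (Fintype.card (Fin K → Fin r))) ℂ)
    (hc : ∀ c ∈ S, ∀ k, ∑ j, c k j = 1)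
    (hb : Polynomial.aeval (∑ j, X j : MvPolynomial (Fin (Fintype.card (Fin K → Fin r))) ℂ) b =
      ∑ c ∈ S, (∏ i ∈ Bs v c, el (prodExp v) i) *
        ((∏ k, ∏ j, if c k j < 0 then Akj k j else 1) * q c)) :
    Kills (prodExp v) b := by
  refine ⟨∑ c ∈ S, ∑ k, ∑ j, |(c k j : ℝ)|, by positivity, fun ε hε T hT s hs => ?_⟩
  rw [hb, Φ_sum (ph_dseq ε hε) _ _ (lm_pos s hs)]
  refine Finset.sum_eq_zero fun c hcc => ?_
  refine Φ_prod_zero v c (hc c hcc) ε T hε (lt_of_le_of_lt ?_ hT) s hs _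
  refine mul_le_mul_of_nonneg_left ?_ hε.le
  exact Finset.single_le_sum (f := fun c : Fin K → Fin r → ℤ => ∑ k, ∑ j, |(c k j : ℝ)|)
    (fun c _ => by positivity) hcc

lemma eval_maevalV {τ : Type} {R : ℕ} (x : Fin R → ℂ) (g : τ → MvPolynomial (Fin R) ℂ)
    (p : MvPolynomial τ ℂ) :
    eval x (aeval g p) = eval (fun i => eval x (g i)) p := by
  induction p using MvPolynomial.induction_on with
  | C a => simp
  | add p q hp hq => rw [map_add, map_add, hp, hq, map_add]
  | mul_X p i hp => rw [map_mul, map_mul, hp, aeval_X, map_mul, eval_X]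

/-- `desc(A, t) / A` -/
noncomputable def rst (k : Fin K) (j : Fin r) (t : ℕ) :
    MvPolynomial (Fin (Fintype.card (Fin K → Fin r))) ℂ :=
  Polynomial.aeval (Akj k j) ((descPochhammer ℂ (t-1)).comp (Polynomial.X - 1))

/-- the exponents attached to `β` -/
noncomputable def al (β : Fin (Fintype.card (Fin K → Fin r)) → ℕ) (k : Fin K) (j : Fin r) : ℕ :=
  ∑ m, if (Fintype.equivFin (Fin K → Fin r)).symm m k = j then β m else 0

lemma eval_Akj (β : Fin (Fintype.card (Fin K → Fin r)) → ℕ) (k : Fin K) (j : Fin r) :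
    eval (fun m => (β m : ℂ)) (Akj k j) = (al β k j : ℂ) := by
  unfold Akj al
  rw [map_sum]
  push_cast
  refine Finset.sum_congr rfl fun m _ => ?_
  split_ifs <;> simp

lemma eval_rst (β : Fin (Fintype.card (Fin K → Fin r)) → ℕ) (k : Fin K) (j : Fin r) (t : ℕ)
    (ht : 1 ≤ t) :
    (al β k j : ℂ) * eval (fun m => (β m : ℂ)) (rst k j t) =
      ((al β k j).descFactorial t : ℂ) := by
  obtain ⟨t, rfl⟩ : ∃ t', t = t' + 1 := ⟨t - 1, by omega⟩
  have h2 := descPochhammer_eval_eq_descFactorial ℂ (al β k j) (t+1)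
  rw [descPochhammer_succ_left, Polynomial.eval_mul, Polynomial.eval_X] at h2
  unfold rst
  rw [eval_paeval, eval_Akj, Nat.add_sub_cancel, h2]

lemma al_mem (β : Fin (Fintype.card (Fin K → Fin r)) → ℕ) : al β ∈ Sn K r (∑ m, β m) := by
  refine mem_Sn.2 fun k => ?_
  unfold al
  rw [Finset.sum_comm]
  refine Finset.sum_congr rfl fun m _ => ?_
  rw [Finset.sum_ite_eq]
  simp

lemma al_sum (v : Fin K → Fin r → Fin N → ℕ) (β : Fin (Fintype.card (Fin K → Fin r)) → ℕ)
    (i : Fin N) :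
    ∑ m, prodExp v m i * β m = ∑ k, ∑ j, al β k j * v k j i := by
  unfold al prodExp
  simp only [Finset.sum_mul]
  rw [Finset.sum_comm]
  refine Finset.sum_congr rfl fun k _ => ?_
  rw [Finset.sum_comm]
  refine Finset.sum_congr rfl fun m _ => ?_
  simp only [ite_mul, zero_mul]
  rw [Finset.sum_ite_eq]
  simp [mul_comm]

/-- The relation for the product. -/
theorem prod_rel (v : Fin K → Fin r → Fin N → ℕ) [Nonempty (Fin K → Fin r)] (b : Polynomial ℂ)
    (hb : IsBFunction (prodPoly v) b) :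
    ∃ b' : Polynomial ℂ, b = (Polynomial.X + 1) ^ K * b' ∧ Kills (prodExp v) b' := by
  classical
  obtain ⟨S, M, q, hS, hq⟩ := num_rel v b hb
  set σ : MvPolynomial (Fin (Fintype.card (Fin K → Fin r))) ℂ := ∑ j, X j with hσ
  set gx : (Fin K → Fin r → ℤ) → (Fin N ⊕ (Fin K × Fin r)) →
      MvPolynomial (Fin (Fintype.card (Fin K → Fin r))) ℂ := fun c x =>
    Sum.elim (fun i => el (prodExp v) i - 1) (fun p => Akj p.1 p.2) x +
      C ((Sh v c x : ℤ) : ℂ) with hgx
  set qt : (Fin K → Fin r → ℤ) → MvPolynomial (Fin (Fintype.card (Fin K → Fin r))) ℂ := fun c =>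
    (∏ k, ∏ j, if c k j < 0 then rst k j (-c k j).toNat else 1) *
      (∏ i ∈ Bs v c, dd (prodExp v) i (Sh v c (Sum.inl i)).toNat) *
      ∑ m ∈ M, σ ^ m * aeval (gx c) (q m c) with hqt
  set G : MvPolynomial (Fin (Fintype.card (Fin K → Fin r))) ℂ :=
    ∑ c ∈ S, (∏ i ∈ Bs v c, el (prodExp v) i) *
        ((∏ k, ∏ j, if c k j < 0 then Akj k j else 1) * qt c) with hG
  have hmain : Polynomial.aeval σ b = (σ + 1) ^ K * G := by
    refine funext_set (fun _ => Set.range (Nat.cast : ℕ → ℂ))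
      (fun _ => Set.infinite_range_of_injective Nat.cast_injective) fun x hx => ?_
    choose β hβ using fun j => hx j (Set.mem_univ j)
    obtain rfl : x = fun j => (β j : ℂ) := funext fun j => (hβ j).symm
    have hσe : eval (fun j => (β j : ℂ)) σ = ((∑ m, β m : ℕ) : ℂ) := by simp [hσ]
    rw [eval_paeval, hσe, hq _ (al β) (al_mem β), map_mul, map_pow, map_add, hσe, map_one, hG,
      map_sum]
    congr 1
    refine Finset.sum_congr rfl fun c hc => ?_
    -- the factors
    have hA : eval (fun j => (β j : ℂ)) (∏ k, ∏ j, if c k j < 0 then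
        (Akj k j : MvPolynomial (Fin (Fintype.card (Fin K → Fin r))) ℂ) else 1) *
        eval (fun j => (β j : ℂ)) (∏ k, ∏ j, if c k j < 0 then rst k j (-c k j).toNat else 1) =
        ∏ k, ∏ j, ((al β k j).descFactorial (-c k j).toNat : ℂ) := by
      simp only [map_prod, ← Finset.prod_mul_distrib]
      refine Finset.prod_congr rfl fun k _ => Finset.prod_congr rfl fun j _ => ?_
      by_cases h : c k j < 0
      · simp only [h, if_true]
        rw [eval_Akj]
        exact eval_rst β k j _ (by omega)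
      · have : (-c k j).toNat = 0 := by omega
        simp [h, this]
    have hB : eval (fun j => (β j : ℂ)) (∏ i ∈ Bs v c, el (prodExp v) i) *
        eval (fun j => (β j : ℂ)) (∏ i ∈ Bs v c, dd (prodExp v) i (Sh v c (Sum.inl i)).toNat) =
        ∏ i, (((∑ k, ∑ j, al β k j * v k j i : ℕ) + Sh v c (Sum.inl i)).toNat.descFactorial
            (Sh v c (Sum.inl i)).toNat : ℂ) := by
      rw [← Finset.prod_subset (Finset.subset_univ (Bs v c))]
      · rw [map_prod, map_prod, ← Finset.prod_mul_distrib]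
        refine Finset.prod_congr rfl fun i hi => ?_
        have h10 : 0 < Sh v c (Sum.inl i) := by simpa [Bs] using hi
        rw [eval_dd _ _ _ (by omega), al_sum]
        have h11 : ((∑ k, ∑ j, al β k j * v k j i : ℕ) + Sh v c (Sum.inl i)).toNat =
            ∑ k, ∑ j, al β k j * v k j i + (Sh v c (Sum.inl i)).toNat := by omega
        rw [h11]
      · intro i _ hi
        have h10 : ¬ 0 < Sh v c (Sum.inl i) := by simpa [Bs] using hi
        have : (Sh v c (Sum.inl i)).toNat = 0 := by omega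
        rw [this]; simp
    have hC : eval (fun j => (β j : ℂ)) (∑ m ∈ M, σ ^ m * aeval (gx c) (q m c)) =
        ∑ m ∈ M, ((∑ m, β m : ℕ) : ℂ) ^ m *
          eval (fun x => ((Ex v (al β) x : ℕ) : ℂ) + ((Sh v c x : ℤ) : ℂ)) (q m c) := by
      rw [map_sum]
      refine Finset.sum_congr rfl fun m _ => ?_
      rw [map_mul, map_pow, hσe, eval_maevalV]
      congr 3
      funext x
      rw [hgx]
      rcases x with i | p
      · simp only [Sum.elim_inl, map_add, map_sub, map_one, eval_C]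
        rw [eval_el, al_sum]
        simp only [Ex, Finsupp.equivFunOnFinite_symm_apply_apply, Sum.elim_inl]
        push_cast
        ring
      · simp only [Sum.elim_inr, map_add, eval_C]
        rw [eval_Akj]
        simp only [Ex, Finsupp.equivFunOnFinite_symm_apply_apply, Sum.elim_inr]
    have hR : eval (fun j => (β j : ℂ)) ((∏ i ∈ Bs v c, el (prodExp v) i) *
        ((∏ k, ∏ j, if c k j < 0 then Akj k j else 1) * qt c)) =
        (∏ k, ∏ j, ((al β k j).descFactorial (-c k j).toNat : ℂ)) *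
          (∏ i, (((∑ k, ∑ j, al β k j * v k j i : ℕ) + Sh v c (Sum.inl i)).toNat.descFactorial
            (Sh v c (Sum.inl i)).toNat : ℂ)) *
          ∑ m ∈ M, ((∑ m, β m : ℕ) : ℂ) ^ m *
          eval (fun x => ((Ex v (al β) x : ℕ) : ℂ) + ((Sh v c x : ℤ) : ℂ)) (q m c) := by
      rw [← hA, ← hB, ← hC, hqt]
      simp only [map_mul]
      ring
    rw [hR]
    split_ifs with hpos
    · rfl
    · push Not at hpos
      obtain ⟨k, j, hkj⟩ := hpos
      have hz : (∏ k, ∏ j, ((al β k j).descFactorial (-c k j).toNat : ℂ)) = 0 := by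
        refine Finset.prod_eq_zero (Finset.mem_univ k) (Finset.prod_eq_zero (Finset.mem_univ j) ?_)
        rw [Nat.descFactorial_eq_zero_iff_lt.2 (by omega)]
        simp
      rw [hz]
      simp
  -- divide by (X + 1) ^ K
  obtain ⟨J0⟩ := ‹Nonempty (Fin K → Fin r)›
  set m0 := Fintype.equivFin (Fin K → Fin r) J0 with hm0
  set ev : MvPolynomial (Fin (Fintype.card (Fin K → Fin r))) ℂ →ₐ[ℂ] Polynomial ℂ :=
    aeval (fun m => if m = m0 then Polynomial.X else 0) with hev
  have hevσ : ev σ = Polynomial.X := by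
    rw [hev, hσ, map_sum]
    simp
  have hb2 : b = (Polynomial.X + 1) ^ K * ev G := by
    have h1 := congrArg ev hmain
    rw [← Polynomial.aeval_algHom_apply, hevσ, map_mul, map_pow, map_add, hevσ, map_one] at h1
    rw [← h1]
    exact (Polynomial.aeval_X_left_apply b).symm
  refine ⟨ev G, hb2, kills_of_rel v _ S qt hS ?_⟩
  rw [← hσ, ← hG]
  have h2 : (σ + 1) ^ K * Polynomial.aeval σ (ev G) = (σ + 1) ^ K * G := by
    rw [← hmain]
    conv_rhs => rw [hb2]
    rw [map_mul, map_pow, map_add, Polynomial.aeval_X, map_one]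
  have h3 : (σ + 1) ^ K ≠ 0 := by
    refine pow_ne_zero K fun h => ?_
    have := congrArg ev h
    rw [map_add, hevσ, map_one, map_zero] at this
    exact Polynomial.X_add_C_ne_zero (1:ℂ) (by simpa using this)
  exact mul_left_cancel₀ h3 h2

/-- The final statement for products. -/
theorem main_prod (v : Fin K → Fin r → Fin N → ℕ) [Nonempty (Fin K → Fin r)]
    (R : ToricResolution (prodExp v)) (b : Polynomial ℂ) (hb : IsBFunction (prodPoly v) b) :
    ∃ P : Polynomial ℂ, algebraMap (Polynomial ℂ) (RatFunc ℂ) b * topZetaProd R =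
      algebraMap (Polynomial ℂ) (RatFunc ℂ) P := by
  obtain ⟨b', hb1, hb2⟩ := prod_rel v b hb
  have : NeZero (Fintype.card (Fin K → Fin r)) := ⟨Fintype.card_ne_zero⟩
  obtain ⟨P, hP⟩ := main_of R b' hb2
  refine ⟨P, ?_⟩
  rw [← hP, hb1]
  unfold topZetaProd
  rw [map_mul, map_pow, map_add, map_one, RatFunc.algebraMap_X]
  have h1 : (RatFunc.X + 1 : RatFunc ℂ) ^ K ≠ 0 := by
    refine pow_ne_zero K ?_
    rw [← RatFunc.algebraMap_X, ← map_one (algebraMap (Polynomial ℂ) (RatFunc ℂ)), ← map_add, Ne,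
      FaithfulSMul.algebraMap_eq_zero_iff]
    exact Polynomial.X_add_C_ne_zero (1:ℂ)
  field_simp

end Pool.Agent.H628R4.TP
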