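import Pool.Agent.H628R4.TP.Defs

set_option autoImplicit false

namespace Pool.Agent.H628R4.TP

open MvPolynomial

variable {σ : Type} [Fintype σ]

/-- the action of an operator on monomials -/
def Act (P : Module.End ℂ (MvPolynomial σ ℂ)) : Prop :=
  ∃ Q : (σ → ℤ) → MvPolynomial σ ℂ, (Function.support Q).Finite ∧
    ∀ (u : σ → ℤ) (n n' : σ →₀ ℕ),
    (∀ i, (n i : ℤ) = n' i + u i) →
    coeff n' (P (monomial n 1)) =
      eval (fun i => (n i : ℂ)) (Q u) * ∏ i, ((n i).descFactorial (u i).toNat : ℂ)

lemma act_one : Act (1 : Module.End ℂ (MvPolynomial σ ℂ)) := by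
  classical
  refine ⟨fun u => if u = 0 then 1 else 0, (Set.finite_singleton 0).subset fun u hu => ?_,
    fun u n n' h => ?_⟩
  · by_contra h
    exact hu (if_neg h)
  rw [Module.End.one_apply, coeff_monomial]
  by_cases hu : u = 0
  · subst hu
    have : n = n' := by
      ext i
      have := h i
      simp at this
      exact_mod_cast this
    simp [this]
  · have : n ≠ n' := by
      rintro rfl
      apply hu
      funext i
      have := h i
      simp at this
      exact this
    simp [this, hu]

lemma act_add {P Q : Module.End ℂ (MvPolynomial σ ℂ)} (hP : Act P) (hQ : Act Q) :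
    Act (P + Q) := by
  obtain ⟨p, hpf, hp⟩ := hP
  obtain ⟨q, hqf, hq⟩ := hQ
  refine ⟨fun u => p u + q u, (hpf.union hqf).subset (Function.support_add p q),
    fun u n n' h => ?_⟩
  rw [LinearMap.add_apply, coeff_add, hp u n n' h, hq u n n' h, map_add, add_mul]

lemma act_zero : Act (0 : Module.End ℂ (MvPolynomial σ ℂ)) :=
  ⟨fun _ => 0, by simp, fun u n n' _ => by simp⟩

lemma act_smul {P : Module.End ℂ (MvPolynomial σ ℂ)} (a : ℂ) (hP : Act P) :
    Act (a • P) := by
  obtain ⟨p, hpf, hp⟩ := hP
  refine ⟨fun u => C a * p u, hpf.subset fun u hu h => hu (by simp [h]), fun u n n' h => ?_⟩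
  rw [LinearMap.smul_apply, coeff_smul, hp u n n' h, map_mul, eval_C, smul_eq_mul, mul_assoc]

lemma prod_desc [DecidableEq σ] (n : σ →₀ ℕ) (u u' : σ → ℤ) (i : σ) (h : ∀ l, l ≠ i → u l = u' l)
    (x : ℂ) (hx : ((n i).descFactorial (u i).toNat : ℂ) = x * ((n i).descFactorial (u' i).toNat : ℂ)) :
    ∏ l, ((n l).descFactorial (u l).toNat : ℂ) = x * ∏ l, ((n l).descFactorial (u' l).toNat : ℂ) := by
  rw [← Finset.mul_prod_erase _ _ (Finset.mem_univ i), hx,
    ← Finset.mul_prod_erase Finset.univ (fun l => ((n l).descFactorial (u' l).toNat : ℂ))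
      (Finset.mem_univ i), mul_assoc]
  congr 2
  refine Finset.prod_congr rfl fun l hl => ?_
  rw [h l (Finset.ne_of_mem_erase hl)]

lemma act_X (i : σ) {P : Module.End ℂ (MvPolynomial σ ℂ)} (hP : Act P) :
    Act (LinearMap.mulLeft ℂ (X i : MvPolynomial σ ℂ) * P) := by
  classical
  obtain ⟨q, hqf, hq⟩ := hP
  refine ⟨fun u => q (u + Pi.single i 1) * (if 0 ≤ u i then X i - C ((u i : ℤ) : ℂ) else 1),
    (hqf.preimage (add_left_injective (Pi.single i 1 : σ → ℤ)).injOn).subset fun u hu h =>
      hu (by simp [h]),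
    fun u n n' h => ?_⟩
  rw [Module.End.mul_apply, LinearMap.mulLeft_apply, coeff_X_mul']
  have hni := h i
  set w : σ → ℤ := u + Pi.single i 1 with hw
  have hwi : w i = u i + 1 := by rw [hw, Pi.add_apply, Pi.single_eq_same]
  have hwl : ∀ l, l ≠ i → w l = u l := fun l hl => by
    rw [hw, Pi.add_apply, Pi.single_eq_of_ne hl, add_zero]
  have hdesc : ∏ l, ((n l).descFactorial (w l).toNat : ℂ) =
      (if 0 ≤ u i then (n i : ℂ) - ((u i : ℤ) : ℂ) else 1) *
        ∏ l, ((n l).descFactorial (u l).toNat : ℂ) := by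
    refine prod_desc n w u i hwl _ ?_
    rw [hwi]
    split_ifs with hu
    · obtain ⟨k, hk⟩ := Int.eq_ofNat_of_zero_le hu
      have h1 : (u i + 1).toNat = k + 1 := by omega
      have h2 : (u i).toNat = k := by omega
      rw [h1, h2, Nat.descFactorial_succ, hk]
      have h3 : k ≤ n i := by omega
      push_cast [Nat.cast_sub h3]
      simp
    · have h1 : (u i + 1).toNat = 0 := by omega
      have h2 : (u i).toNat = 0 := by omega
      rw [h1, h2]; simp
  split_ifs with h0
  · have h1 : n' i ≠ 0 := by simpa using h0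
    rw [hq w n (n' - Finsupp.single i 1) ?_, hdesc]
    · rw [map_mul]
      by_cases hu : 0 ≤ u i
      · simp only [hu, if_true, map_sub, eval_X, eval_C]; ring
      · simp only [hu, if_false, map_one]; ring
    · intro l
      rw [Finsupp.tsub_apply]
      by_cases hl : l = i
      · rw [hl, Finsupp.single_eq_same, hwi]
        omega
      · rw [Finsupp.single_eq_of_ne hl, hwl l hl]
        have := h l
        omega
  · have h1 : n' i = 0 := by simpa using h0
    have hu : 0 ≤ u i := by omega
    have h2 : (n i : ℂ) - ((u i : ℤ) : ℂ) = 0 := by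
      have : (n i : ℤ) = u i := by omega
      rw [sub_eq_zero]
      exact_mod_cast this
    rw [map_mul]
    simp only [hu, if_true, map_sub, eval_X, eval_C, h2, mul_zero, zero_mul]

lemma act_D (i : σ) {P : Module.End ℂ (MvPolynomial σ ℂ)} (hP : Act P) :
    Act (((pderiv i : Derivation ℂ (MvPolynomial σ ℂ)
        (MvPolynomial σ ℂ)) : MvPolynomial σ ℂ →ₗ[ℂ] MvPolynomial σ ℂ) * P) := by
  classical
  obtain ⟨q, hqf, hq⟩ := hP
  refine ⟨fun u => q (u - Pi.single i 1) * (if 0 < u i then 1 else X i - C ((u i : ℤ) : ℂ) + 1),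
    (hqf.preimage (sub_left_injective (b := (Pi.single i 1 : σ → ℤ))).injOn).subset fun u hu h =>
      hu (by simp [h]),
    fun u n n' h => ?_⟩
  rw [Module.End.mul_apply]
  have hni := h i
  have h0 : coeff n' (((pderiv i : Derivation ℂ (MvPolynomial σ ℂ)
        (MvPolynomial σ ℂ)) : MvPolynomial σ ℂ →ₗ[ℂ] MvPolynomial σ ℂ)
        (P (monomial n 1))) = coeff (n' + Finsupp.single i 1) (P (monomial n 1)) * (n' i + 1) := by
    exact coeff_pderiv _ _
  set w : σ → ℤ := u - Pi.single i 1 with hw
  have hwi : w i = u i - 1 := by rw [hw, Pi.sub_apply, Pi.single_eq_same]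
  have hwl : ∀ l, l ≠ i → w l = u l := fun l hl => by
    rw [hw, Pi.sub_apply, Pi.single_eq_of_ne hl, sub_zero]
  rw [h0, hq w n (n' + Finsupp.single i 1) ?_]
  · have hdesc : ∏ l, ((n l).descFactorial (u l).toNat : ℂ) =
        (if 0 < u i then (n' i : ℂ) + 1 else 1) *
          ∏ l, ((n l).descFactorial (w l).toNat : ℂ) := by
      refine prod_desc n u w i (fun l hl => (hwl l hl).symm) _ ?_
      rw [hwi]
      split_ifs with hu
      · obtain ⟨k, hk⟩ := Int.eq_ofNat_of_zero_le (show 0 ≤ u i - 1 by omega)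
        have h1 : (u i).toNat = k + 1 := by omega
        have h2 : (u i - 1).toNat = k := by omega
        rw [h1, h2, Nat.descFactorial_succ]
        have h3 : n i - k = n' i + 1 := by omega
        rw [h3]
        push_cast
        ring
      · have h1 : (u i - 1).toNat = 0 := by omega
        have h2 : (u i).toNat = 0 := by omega
        rw [h1, h2]; simp
    rw [hdesc, map_mul]
    by_cases hu : 0 < u i
    · simp only [hu, if_true, map_one]; ring
    · simp only [hu, if_false, map_add, map_sub, map_one, eval_X, eval_C]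
      have h4 : (n i : ℂ) = n' i + ((u i : ℤ) : ℂ) := by exact_mod_cast hni
      rw [h4]
      ring
  · intro l
    rw [Finsupp.add_apply]
    by_cases hl : l = i
    · rw [hl, Finsupp.single_eq_same, hwi]
      push_cast
      omega
    · rw [Finsupp.single_eq_of_ne hl, hwl l hl]
      have := h l
      push_cast
      omega

lemma act_weyl (P : Module.End ℂ (MvPolynomial σ ℂ)) (hP : P ∈ weylS σ) : Act P := by
  have h1 : P ∈ Subalgebra.toSubmodule (weylS σ) := hP
  unfold weylS at h1
  rw [Algebra.adjoin_eq_span] at h1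
  clear hP
  induction h1 using Submodule.span_induction with
  | mem x hx =>
    induction hx using Submonoid.closure_induction_left with
    | one => exact act_one
    | mul_left x hx y hy ih =>
      rcases hx with ⟨i, rfl⟩ | ⟨i, rfl⟩
      · exact act_X i (ih)
      · exact act_D i (ih)
  | zero => exact act_zero
  | add x y _ _ hx hy => exact act_add (hx) (hy)
  | smul a x _ hx => exact act_smul a (hx)

end Pool.Agent.H628R4.TP
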